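import Mathlib

set_option autoImplicit false
set_option maxHeartbeats 400000

open Finset Module
open scoped InnerProductSpace

namespace Pool.Agent.Results.MP_b06300_an.Common

/-- `Λ` is a Riesz basis of exponentials for `E` -/
def IsRB {G : Type} [AddCommGroup G] (E : Finset G) (Λ : Finset (AddChar G ℂ)) : Prop :=
  Λ.card = E.card ∧ LinearIndependent ℂ fun (χ : Λ) (x : E) => χ.1 x.1

section
variable {α : Type} [DecidableEq α]

structure Rk (r : Finset α → ℕ) : Prop where
  e : r ∅ = 0
  mono : ∀ A B, A ⊆ B → r A ≤ r B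
  ins : ∀ a A, r (insert a A) ≤ r A + 1
  sub : ∀ A B, r (A ∪ B) + r (A ∩ B) ≤ r A + r B

theorem Rk.con {r : Finset α → ℕ} (h : Rk r) (e : α) (A : Finset α) (h1 : r A < r (insert e A)) :
    (∀ B, 1 ≤ r (insert e B)) ∧ Rk fun B => r (insert e B) - 1 := by
  have a : ∀ B, 1 ≤ r (insert e B) := fun B => by
    have := h.sub {e} A
    have := h.mono {e} (insert e B) (by simp)
    rw [← insert_eq] at *; omega
  refine ⟨a, ?_, fun A B s => ?_, fun x A => ?_, fun A B => ?_⟩
  · have := h.ins e ∅; have := h.e; omega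
  · have := h.mono _ _ (insert_subset_insert e s); omega
  · have := h.ins x (insert e A); rw [insert_comm]; omega
  · have := h.sub (insert e A) (insert e B)
    rw [← insert_union_distrib, ← insert_inter_distrib] at this
    have := a (A ∪ B); have := a (A ∩ B); have := a A; have := a B; omega

theorem inter (S : Finset α) : ∀ (r s : Finset α → ℕ) (k : ℕ), Rk r → Rk s →
    (∀ A ⊆ S, k ≤ r A + s (S \ A)) → ∃ I ⊆ S, #I = k ∧ r I = k ∧ s I = k := by
  induction S using Finset.induction with
  | empty =>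
    intro r s k hr hs h
    have := h ∅ (by simp)
    exact ⟨∅, by simp, by simp_all [hr.e, hs.e]⟩
  | insert e S he ih =>
    intro r s k hr hs h
    by_cases c : ∀ A ⊆ S, k ≤ r A + s (S \ A)
    · obtain ⟨I, a, b⟩ := ih r s k hr hs c
      exact ⟨I, a.trans (subset_insert _ _), b⟩
    push Not at c
    obtain ⟨A, a1, a2⟩ := c
    have e1 : ∀ B, insert e S \ insert e B = S \ B := fun B => by
      rw [insert_sdiff_insert, sdiff_insert_of_notMem he]
    have e2 : ∀ B ⊆ S, insert e S \ B = insert e (S \ B) := fun B hB =>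
      insert_sdiff_of_notMem _ fun c => he (hB c)
    have b1 := h _ (insert_subset_insert e a1)
    have b2 := h A (a1.trans (subset_insert _ _))
    rw [e1] at b1
    rw [e2 _ a1] at b2
    obtain ⟨p1, p2⟩ := hr.con e A (by omega)
    obtain ⟨q1, q2⟩ := hs.con e (S \ A) (by omega)
    obtain ⟨I, i1, i2, i3, i4⟩ := ih _ _ (k - 1) p2 q2 fun B hB => by
      have c1 := h _ (insert_subset_insert e (union_subset a1 hB))
      have c2 := h (A ∩ B) ((inter_subset_left.trans a1).trans (subset_insert _ _))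
      rw [e1, sdiff_union_distrib] at c1
      rw [e2 _ (inter_subset_left.trans a1), sdiff_inter_distrib_right] at c2
      have c3 := hr.sub A (insert e B)
      have c4 := hs.sub (S \ A) (insert e (S \ B))
      rw [union_insert, inter_insert_of_notMem (fun c => he (a1 c))] at c3
      rw [union_insert, inter_insert_of_notMem (fun c => he (sdiff_subset c))] at c4
      have := p1 B; have := q1 (S \ B); omega
    have := p1 I; have := q1 I
    exact ⟨insert e I, insert_subset_insert e i1,
      by rw [card_insert_of_notMem fun c => he (i1 c)]; omega, by omega, by omega⟩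

theorem rkl {V : Type} [AddCommGroup V] [Module ℂ V] [FiniteDimensional ℂ V] (c : α → V) :
    Rk fun A : Finset α => finrank ℂ (Submodule.span ℂ (c '' A)) := by
  have s : ∀ A B : Finset α, finrank ℂ (Submodule.span ℂ (c '' ↑(A ∪ B))) +
      finrank ℂ (Submodule.span ℂ (c '' ↑(A ∩ B))) ≤
      finrank ℂ (Submodule.span ℂ (c '' A)) + finrank ℂ (Submodule.span ℂ (c '' B)) := fun A B => by
    rw [← Submodule.finrank_sup_add_finrank_inf_eq (Submodule.span ℂ (c '' A)), coe_union, Set.image_union, Submodule.span_union]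
    exact add_le_add le_rfl (Submodule.finrank_mono (le_inf
      (Submodule.span_mono (Set.image_mono (coe_subset.2 inter_subset_left)))
      (Submodule.span_mono (Set.image_mono (coe_subset.2 inter_subset_right)))))
  refine ⟨by simp, fun A B h => Submodule.finrank_mono (Submodule.span_mono (Set.image_mono h)),
    fun a A => ?_, s⟩
  have := s {a} A
  have h : finrank ℂ (Submodule.span ℂ (c '' ({a} : Finset α))) ≤ 1 := by
    rw [coe_singleton, Set.image_singleton]
    simpa using finrank_span_le_card (R := ℂ) ({c a} : Set V)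
  rw [insert_eq]; omega
end

variable {G : Type} [AddCommGroup G] [Fintype G]

noncomputable def c (E : Finset G) (χ : AddChar G ℂ) : EuclideanSpace ℂ E := WithLp.toLp 2 fun x => χ x

theorem pars (E : Finset G) (w : EuclideanSpace ℂ E) :
    ∑ χ, ‖⟪w, c E χ⟫_ℂ‖ ^ 2 = Fintype.card G * ‖w‖ ^ 2 := by
  classical
  have : ∑ χ, ⟪c E χ, w⟫_ℂ * ⟪w, c E χ⟫_ℂ = Fintype.card G * ⟪w, w⟫_ℂ := by
    have e : ∀ χ, ⟪c E χ, w⟫_ℂ * ⟪w, c E χ⟫_ℂ =
        ∑ x : E, ∑ y : E, w x * (starRingEnd ℂ) (w y) * χ (y - x) := fun χ => by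
      simp only [PiLp.inner_apply, RCLike.inner_apply, c, sum_mul_sum, sub_eq_add_neg,
        AddChar.map_add_eq_mul, AddChar.map_neg_eq_conj]
      exact sum_congr rfl fun x _ => sum_congr rfl fun y _ => by ring
    rw [sum_congr rfl fun χ _ => e χ, sum_comm, PiLp.inner_apply, mul_sum]
    refine sum_congr rfl fun x _ => ?_
    rw [sum_comm]
    simp only [← mul_sum, AddChar.sum_apply_eq_ite, sub_eq_zero, Subtype.coe_inj, mul_ite, mul_zero,
      sum_ite_eq', mem_univ, if_true, RCLike.inner_apply]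
    ring
  simp only [← inner_conj_symm (c E _) w, Complex.conj_mul', inner_self_eq_norm_sq_to_K] at this
  apply Complex.ofReal_injective
  push_cast
  exact this

theorem bd (E : Finset G) (A : Finset (AddChar G ℂ)) :
    #A * #E ≤ finrank ℂ (Submodule.span ℂ (c E '' A)) * Fintype.card G := by
  let b := stdOrthonormalBasis ℂ (Submodule.span ℂ (c E '' A))
  have h1 : ∀ χ ∈ A, (#E : ℝ) = ∑ i, ‖⟪(b i).1, c E χ⟫_ℂ‖ ^ 2 := fun χ h => by
    refine Eq.trans ?_ (b.sum_sq_norm_inner_right ⟨_, Submodule.subset_span ⟨χ, h, rfl⟩⟩).symm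
    simp [EuclideanSpace.norm_sq_eq, c]
  have h2 := sum_le_sum_of_subset_of_nonneg (f := fun χ => ∑ i, ‖⟪(b i).1, c E χ⟫_ℂ‖ ^ 2)
    (subset_univ A) fun _ _ _ => by positivity
  rw [← sum_congr rfl h1, sum_comm] at h2
  have h3 : ∀ i, ‖(b i).1‖ = 1 := b.orthonormal.1
  simp only [pars, h3] at h2
  simp at h2
  exact_mod_cast h2

omit [Fintype G] in
theorem li (E : Finset G) (I : Finset (AddChar G ℂ)) (h : #I = finrank ℂ (Submodule.span ℂ (c E '' I))) :
    LinearIndependent ℂ fun (χ : I) (x : E) => χ.1 x.1 :=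
  (linearIndependent_iff_card_eq_finrank_span (b := fun χ : I => c E χ)).2 (by
    rw [Fintype.card_coe, h, Set.image_eq_range]; rfl) |>.map'
    (WithLp.linearEquiv 2 ℂ (E → ℂ)).toLinearMap (LinearEquiv.ker _)

theorem result (G : Type) [AddCommGroup G] [Fintype G] (E₁ E₂ : Finset G) (h : E₁.card = E₂.card) :
    ∃ Λ : Finset (AddChar G ℂ), IsRB E₁ Λ ∧ IsRB E₂ Λ := by
  classical
  obtain ⟨I, -, a, b, d⟩ := inter univ _ _ #E₁ (rkl (c E₁)) (rkl (c E₂)) fun A _ => by
    have h1 := bd E₁ A
    have h2 := bd E₂ (univ \ A)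
    have h3 := card_sdiff_add_card_eq_card (subset_univ A)
    rw [card_univ, AddChar.card_eq] at h3
    refine Nat.le_of_mul_le_mul_right ?_ (Fintype.card_pos (α := G))
    rw [add_mul]
    nlinarith
  exact ⟨I, ⟨a, li _ _ (a.trans b.symm)⟩, a.trans h, li _ _ (a.trans d.symm)⟩

end Pool.Agent.Results.MP_b06300_an.Common
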